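import Pool.Agent.H32.N6W.Targets

/-! SGP. The symbols over a set of places. -/

set_option autoImplicit false

open Polynomial NumberField IsDedekindDomain Pool.Agent.H32.QC Pool.Agent.H34.N6
open Pool.Agent.H13.DEV Pool.Agent.H34.N6V Pool.Agent.H63.WT Pool.Agent.H32.N6W

namespace Pool.Agent.H91.N6W

open Classical in
theorem pf_SGP (hFIN : T_FIN) : T_SGP := by
  intro k L _ _ _ _ _ D e S G
  have hfin := (hFIN k L).1
  unfold th
  induction S using Finset.induction_on with
  | empty =>
    unfold sg
    rw [Finset.prod_empty]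
    have h1 : ∀ w : Pl L, (∏ᶠ (_ : bel (k := k) w ∈ (∅ : Finset (Pl k))),
        hs w (aeval e (G (bel (k := k) w))) (aeval e D)) = 1 := by
      intro w
      haveI : IsEmpty (bel (k := k) w ∈ (∅ : Finset (Pl k))) := ⟨fun h => Finset.notMem_empty _ h⟩
      exact finprod_of_isEmpty _
    rw [finprod_congr h1, finprod_one]
  | insert v S hv ih =>
    rw [Finset.prod_insert hv, ← ih]
    have h1 : sg D e (insert v S) G =
        ∏ᶠ (w : Pl L) (_ : w ∈ {w : Pl L | bel (k := k) w = v} ∪ {w : Pl L | bel (k := k) w ∈ S}),
          hs w (aeval e (G (bel (k := k) w))) (aeval e D) := by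
      unfold sg
      refine finprod_congr (fun w => ?_)
      refine finprod_congr_Prop ?_ (fun _ => rfl)
      rw [Finset.mem_insert]
      rfl
    have hd : Disjoint {w : Pl L | bel (k := k) w = v} {w : Pl L | bel (k := k) w ∈ S} := by
      rw [Set.disjoint_left]
      intro w h2 h3
      have h4 : bel (k := k) w = v := h2
      have h5 : bel (k := k) w ∈ S := h3
      rw [h4] at h5
      exact hv h5
    have hf2 : {w : Pl L | bel (k := k) w ∈ S}.Finite := by
      have h6 : {w : Pl L | bel (k := k) w ∈ S} ⊆ ⋃ u ∈ S, {w : Pl L | bel (k := k) w = u} := by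
        intro w hw
        exact Set.mem_biUnion (show bel (k := k) w ∈ (S : Set (Pl k)) from hw) rfl
      exact (Set.Finite.biUnion S.finite_toSet (fun u _ => hfin u)).subset h6
    rw [h1, finprod_mem_union hd (hfin v) hf2]
    refine congrArg₂ (· * ·) ?_ rfl
    refine finprod_mem_congr rfl (fun w hw => ?_)
    have hw' : bel (k := k) w = v := hw
    rw [hw']

end Pool.Agent.H91.N6W
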