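import Pool.Agent.H32.N6W.Targets

/-! THM. The symbols above a place are multiplicative. -/

set_option autoImplicit false

open Polynomial NumberField IsDedekindDomain Pool.Agent.H32.QC Pool.Agent.H34.N6
open Pool.Agent.H13.DEV Pool.Agent.H34.N6V Pool.Agent.H63.WT Pool.Agent.H32.N6W

namespace Pool.Agent.H91.N6W

theorem pf_THM (hPBM : Pool.Agent.H32.QC.T_PBM) (hPSG : Pool.Agent.H32.QC.T_PSG)
    (hFIN : T_FIN) : T_THM := by
  intro k L _ _ _ _ _ D e v hD
  have hfin : {w : Pl L | bel (k := k) w = v}.Finite := (hFIN k L).1 v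
  refine ⟨?_, ?_⟩
  · intro G H hG hH
    have h1 : th D e v (G * H) = ∏ᶠ (w : Pl L) (_ : w ∈ {w : Pl L | bel (k := k) w = v}),
        (hs w (aeval e G) (aeval e D) * hs w (aeval e H) (aeval e D)) := by
      unfold th
      refine finprod_congr (fun w => finprod_congr_Prop rfl (fun _ => ?_))
      rw [map_mul]
      have hGH : aeval e G * aeval e H ≠ 0 := mul_ne_zero hG hH
      rw [(hPSG L w _ _ hGH hD).2.1, hPBM L w _ _ _ hD hG hH, (hPSG L w _ _ hG hD).2.1,
        (hPSG L w _ _ hH hD).2.1]
    rw [h1, finprod_mem_mul_distrib hfin]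
    rfl
  · intro G _
    have hmul : ∀ x y : ℤ, (x = 1 ∨ x = -1) → (y = 1 ∨ y = -1) → (x * y = 1 ∨ x * y = -1) := by
      rintro x y (h | h) (h' | h') <;> simp [h, h']
    have hhil : ∀ (F : Type) [Field F] (a b : F), hil a b = 1 ∨ hil a b = -1 := by
      intro F _ a b
      unfold hil
      split_ifs
      · exact Or.inl rfl
      · exact Or.inr rfl
    unfold th
    apply finprod_induction (p := fun x : ℤ => x = 1 ∨ x = -1) (Or.inl rfl)
      (fun {x y} hx hy => hmul x y hx hy)
    intro w
    apply finprod_induction (p := fun x : ℤ => x = 1 ∨ x = -1) (Or.inl rfl)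
      (fun {x y} hx hy => hmul x y hx hy)
    intro _
    cases w with
    | inl w => exact hhil _ _ _
    | inr w => exact hhil _ _ _

end Pool.Agent.H91.N6W
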